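import Pool.Agent.Q85.VL.Defs

/-! # Project VL, part VL-12: the function which increases along the arcs (helper71) -/

set_option autoImplicit false

open MeasureTheory Set Metric
open H459R3.NS Pool.Agent.W268.NS Pool.Agent.Q67.VD

namespace Pool.Agent.J4H12.VL

open Pool.Agent.Q85.CC Pool.Agent.Q85.CL Pool.Agent.Q151.CC Pool.Agent.Q85.VL

namespace G

lemma len_eq (a : V) : len a = ‖(WithLp.toLp 2 a : EuclideanSpace ℝ (Fin 3))‖ := by
  unfold len
  rw [EuclideanSpace.norm_eq]
  congr 1
  simp only [dotProduct, Real.norm_eq_abs, sq_abs]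
  exact Finset.sum_congr rfl fun i _ => (sq (a i)).symm

lemma len_nonneg (a : V) : 0 ≤ len a := Real.sqrt_nonneg _

lemma len_tri (a b : V) : len (a + b) ≤ len a + len b := by
  rw [len_eq, len_eq, len_eq, WithLp.toLp_add]
  exact norm_add_le _ _

lemma len_zero : len (0 : V) = 0 := by
  rw [len_eq]
  simp

lemma len_tri' (a b c : V) : len (a - c) ≤ len (a - b) + len (b - c) := by
  have := len_tri (a - b) (b - c)
  rwa [sub_add_sub_cancel] at this

lemma len_symm (a b : V) : len (a - b) = len (b - a) := by
  rw [len_eq, len_eq, ← neg_sub b a, WithLp.toLp_neg, norm_neg]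

lemma len_bd (a : V) : len a ≤ 2 * ‖a‖ := by
  unfold len
  rw [Real.sqrt_le_left (by positivity)]
  have h : ∀ i : Fin 3, a i * a i ≤ ‖a‖ * ‖a‖ := fun i => by
    have h1 := norm_le_pi_norm a i
    have h2 : a i * a i = ‖a i‖ * ‖a i‖ := by rw [Real.norm_eq_abs, abs_mul_abs_self]
    rw [h2]
    exact mul_le_mul h1 h1 (norm_nonneg _) (norm_nonneg _)
  have h1 : a ⬝ᵥ a = a 0 * a 0 + a 1 * a 1 + a 2 * a 2 := by
    simp only [dotProduct, Fin.sum_univ_three]
  rw [h1]
  nlinarith [h 0, h 1, h 2, norm_nonneg a]

/-- the values of the chains of arcs which end at `y` -/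
def T (z : V → V) (D : Set V) (ε : ℝ) (y : V) : Set ℝ :=
  {c | ∃ (n : ℕ) (p q : ℕ → V) (l : ℕ → ℝ), p n = y ∧ (∀ i < n, Arc z D (p i) (q i) (l i)) ∧
    c = ε * ∑ i ∈ Finset.range n, l i - ∑ i ∈ Finset.range n, len (p (i + 1) - q i)}

lemma zero_mem (z : V → V) (D : Set V) (ε : ℝ) (y : V) : 0 ∈ T z D ε y :=
  ⟨0, fun _ => y, fun _ => y, fun _ => 0, rfl, fun i hi => absurd hi (Nat.not_lt_zero i), by simp⟩

lemma arc_mem {z : V → V} {D : Set V} {p q : V} {l : ℝ} (h : Arc z D p q l) : p ∈ D ∧ q ∈ D := by
  obtain ⟨hl, γ, h0, h1, h2⟩ := h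
  exact ⟨h0 ▸ (h2 0 ⟨le_rfl, hl.le⟩).1, h1 ▸ (h2 l ⟨hl.le, le_rfl⟩).1⟩

lemma bdd {z : V → V} {D : Set V} {a : V} {R ε : ℝ} (hD : ∀ y ∈ D, ‖y - a‖ ≤ R)
    (hn : ¬ Chained z D ε) (y : V) : BddAbove (T z D ε y) := by
  refine ⟨4 * |R|, ?_⟩
  rintro c ⟨n, p, q, l, hp, hA, rfl⟩
  rcases Nat.eq_zero_or_pos n with rfl | hn0
  · simp
  · obtain ⟨k, rfl⟩ : ∃ k, n = k + 1 := ⟨n - 1, by omega⟩
    by_contra hc
    push Not at hc
    apply hn
    refine ⟨k + 1, Function.update p (k + 1) (p 0), q, l, hn0, ?_, ?_, ?_⟩
    · rw [Function.update_self, Function.update_of_ne (by omega)]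
    · intro i hi
      rw [Function.update_of_ne (by omega)]
      exact hA i hi
    · rw [Finset.sum_range_succ] at hc ⊢
      have e : ∑ i ∈ Finset.range k, len (Function.update p (k + 1) (p 0) (i + 1) - q i) =
          ∑ i ∈ Finset.range k, len (p (i + 1) - q i) := by
        refine Finset.sum_congr rfl fun i hi => ?_
        rw [Function.update_of_ne]
        have := Finset.mem_range.1 hi
        omega
      rw [e, Function.update_self]
      rw [Finset.sum_range_succ (fun i => len (p (i + 1) - q i))] at hc
      rw [Finset.sum_range_succ]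
      have h1 : len (p 0 - q k) ≤ 4 * |R| := by
        have h2 := hD _ (arc_mem (hA 0 (by omega))).1
        have h3 := hD _ (arc_mem (hA k (by omega))).2
        have h4 : ‖p 0 - q k‖ ≤ ‖p 0 - a‖ + ‖q k - a‖ := by
          rw [← sub_sub_sub_cancel_right (p 0) (q k) a]
          exact norm_sub_le _ _
        have h5 := len_bd (p 0 - q k)
        have h6 := le_abs_self R
        linarith
      have h7 := len_nonneg (p (k + 1) - q k)
      linarith

end G

open G in
/-- VL-12 -/
theorem stmG : StmG := by
  intro z D a R ε hD hε hn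
  have hb := bdd hD hn
  have hne : ∀ y, (T z D ε y).Nonempty := fun y => ⟨0, zero_mem z D ε y⟩
  have hlip : ∀ y y', sSup (T z D ε y) ≤ sSup (T z D ε y') + len (y - y') := by
    intro y y'
    refine csSup_le (hne y) ?_
    rintro c ⟨n, p, q, l, hp, hA, rfl⟩
    rcases Nat.eq_zero_or_pos n with rfl | hn0
    · have h1 := le_csSup (hb y') (zero_mem z D ε y')
      have h2 := len_nonneg (y - y')
      simp
      linarith
    · obtain ⟨k, rfl⟩ : ∃ k, n = k + 1 := ⟨n - 1, by omega⟩
      have h1 : ε * ∑ i ∈ Finset.range (k + 1), l i -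
          (∑ i ∈ Finset.range k, len (p (i + 1) - q i) + len (y' - q k)) ∈ T z D ε y' := by
        refine ⟨k + 1, Function.update p (k + 1) y', q, l, Function.update_self .., ?_, ?_⟩
        · intro i hi
          rw [Function.update_of_ne (by omega)]
          exact hA i hi
        · rw [Finset.sum_range_succ (fun i => len (Function.update p (k + 1) y' (i + 1) - q i)),
            Function.update_self]
          have e : ∑ i ∈ Finset.range k, len (Function.update p (k + 1) y' (i + 1) - q i) =
              ∑ i ∈ Finset.range k, len (p (i + 1) - q i) := by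
            refine Finset.sum_congr rfl fun i hi => ?_
            rw [Function.update_of_ne]
            have := Finset.mem_range.1 hi
            omega
          rw [e]
      have h2 := le_csSup (hb y') h1
      rw [Finset.sum_range_succ (fun i => len (p (i + 1) - q i)), hp]
      have h3 := len_tri' y' y (q k)
      rw [len_symm y' y] at h3
      linarith
  refine ⟨fun y => sSup (T z D ε y), fun y y' => ?_, fun p q l hpq => ?_⟩
  · rw [abs_sub_le_iff]
    constructor
    · have := hlip y y'
      linarith
    · have := hlip y' y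
      rw [len_symm y' y] at this
      linarith
  · show sSup (T z D ε p) + ε * l ≤ sSup (T z D ε q)
    rw [← le_sub_iff_add_le]
    refine csSup_le (hne p) ?_
    rintro c ⟨n, P, Q, L, hp, hA, rfl⟩
    rw [le_sub_iff_add_le]
    refine le_csSup (hb q) ?_
    refine ⟨n + 1, Function.update P (n + 1) q, Function.update Q n q, Function.update L n l,
      Function.update_self .., ?_, ?_⟩
    · intro i hi
      rw [Function.update_of_ne (by omega)]
      rcases Nat.lt_succ_iff_lt_or_eq.1 hi with h | h
      · rw [Function.update_of_ne (by omega), Function.update_of_ne (by omega)]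
        exact hA i h
      · subst h
        rw [Function.update_self, Function.update_self, hp]
        exact hpq
    · rw [Finset.sum_range_succ, Finset.sum_range_succ, Function.update_self, Function.update_self,
        Function.update_self, sub_self, len_zero]
      have e1 : ∑ i ∈ Finset.range n, Function.update L n l i = ∑ i ∈ Finset.range n, L i := by
        refine Finset.sum_congr rfl fun i hi => ?_
        have := Finset.mem_range.1 hi
        rw [Function.update_of_ne (by omega)]
      have e2 : ∑ i ∈ Finset.range n, len (Function.update P (n + 1) q (i + 1) - Function.update Q n q i) =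
          ∑ i ∈ Finset.range n, len (P (i + 1) - Q i) := by
        refine Finset.sum_congr rfl fun i hi => ?_
        have := Finset.mem_range.1 hi
        rw [Function.update_of_ne (by omega), Function.update_of_ne (by omega)]
      rw [e1, e2]
      ring

end Pool.Agent.J4H12.VL
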